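import Pool.Agent.Helper8.Kak.DefsC

/-! Modules C4 and C6 of MP_013a6c_an: names of images are concatenations of words, and names in the
towers. -/

open MeasureTheory Set Topology Filter
open scoped symmDiff ENNReal ProbabilityTheory

namespace KakC

/-! ## C4 -/

private theorem C4_name_add {Y : Type*} (P : Y → ℕ) (T : Y → Y) (y : Y) (m n : ℕ) :
    name P T y (m + n) = name P T y m ++ name P T (T^[m] y) n := by
  unfold name
  rw [List.range_add, List.map_append, List.map_map]
  congr 1
  apply List.map_congr_left
  intro s _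
  simp only [Function.comp]
  rw [add_comm m s, Function.iterate_add_apply]

private theorem C4_ret_spec {X : Type*} {S : X → X} {A' : Set X} {z : X}
    (h2 : ∃ n, 0 < n ∧ S^[n] z ∈ A') : 0 < ret S A' z ∧ S^[ret S A' z] z ∈ A' := by
  have hne : {n | 0 < n ∧ S^[n] z ∈ A'}.Nonempty := h2
  exact Nat.sInf_mem hne

private theorem C4_not_mem {X : Type*} {S : X → X} {A' : Set X} {z : X} {i : ℕ} (hi : 0 < i)
    (hi' : i < ret S A' z) : S^[i] z ∉ A' := by
  intro hmem
  exact absurd (Nat.sInf_le (s := {n | 0 < n ∧ S^[n] z ∈ A'}) ⟨hi, hmem⟩) (not_le.2 hi')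

private theorem C4_flat {X : Type*} {S : X → X} {A' : Set X} {z : X} (g : X → List ℕ)
    (hg : ∀ x, x ∉ A' → g x = []) {n : ℕ} (hn : 0 < n) (hr : n ≤ ret S A' z) :
    (List.range n).flatMap (fun s => g (S^[s] z)) = g z := by
  obtain ⟨m, rfl⟩ : ∃ m, n = 1 + m := ⟨n - 1, by omega⟩
  rw [List.range_add, List.flatMap_append]
  have e1 : List.flatMap (fun s => g (S^[s] z)) (List.range 1) = g z := by
    simp [List.range_succ]
  have e2 : List.flatMap (fun s => g (S^[s] z)) (List.map (fun x => 1 + x) (List.range m)) = [] := by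
    rw [List.flatMap_eq_nil_iff]
    intro x hx
    rw [List.mem_map] at hx
    obtain ⟨y, hy, rfl⟩ := hx
    rw [List.mem_range] at hy
    exact hg _ (C4_not_mem (by omega) (by omega))
  rw [e1, e2, List.append_nil]

private theorem C4_visits_small {X : Type*} {S : X → X} {A' : Set X} {z : X} {n : ℕ}
    (hr : n ≤ ret S A' z) : visits S A' z n ≤ 1 := by
  classical
  unfold visits
  have : (Finset.range n).filter (fun s => S^[s] z ∈ A') ⊆ {0} := by
    intro s hs
    rw [Finset.mem_filter, Finset.mem_range] at hs
    rw [Finset.mem_singleton]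
    by_contra hne
    exact C4_not_mem (Nat.pos_of_ne_zero hne) (lt_of_lt_of_le hs.1 hr) hs.2
  calc _ ≤ ({0} : Finset ℕ).card := by
        convert Finset.card_le_card this
    _ = 1 := rfl

private theorem C4_visits_add {X : Type*} {S : X → X} {A' : Set X} {z : X} (m n : ℕ) :
    visits S A' z (m + n) = visits S A' z m + visits S A' (S^[m] z) n := by
  classical
  unfold visits
  rw [Finset.card_filter, Finset.card_filter, Finset.card_filter, Finset.sum_range_add]
  congr 1
  apply Finset.sum_congr rfl
  intro s _
  rw [add_comm m s, Function.iterate_add_apply]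

theorem concat_names {X Y : Type*} {S : X → X} {T : Y → Y} {A' : Set X} {B' : Set Y}
    {φ : X → Y} (P : Y → ℕ) {z : X} (hz : z ∈ A')
    (h1 : ∀ s, S^[s] z ∈ A' → φ (induced S A' (S^[s] z)) = induced T B' (φ (S^[s] z)))
    (h2 : ∀ s, S^[s] z ∈ A' → ∃ n, 0 < n ∧ S^[n] (S^[s] z) ∈ A')
    (h3 : ∀ s, S^[s] z ∈ A' → 0 < ret T B' (φ (S^[s] z))) (n : ℕ) :
    ∃ m, visits S A' z n ≤ m ∧
      (List.range n).flatMap (fun s => Gw P T B' φ A' (S^[s] z)) = name P T (φ z) m := by
  induction n using Nat.strong_induction_on generalizing z with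
  | _ n ih =>
    rcases Nat.eq_zero_or_pos n with hn | hn
    · subst hn
      exact ⟨0, by simp [visits], by simp [name]⟩
    have hg : ∀ x, x ∉ A' → Gw P T B' φ A' x = [] := by
      intro x hx
      unfold Gw
      rw [if_neg hx]
    have hGz : Gw P T B' φ A' z = name P T (φ z) (ret T B' (φ z)) := by
      unfold Gw
      rw [if_pos hz]
    have h30 : 0 < ret T B' (φ z) := h3 0 hz
    have h10 : φ (induced S A' z) = induced T B' (φ z) := h1 0 hz
    obtain ⟨hr0, hrm⟩ := C4_ret_spec (h2 0 hz)
    simp only [Function.iterate_zero, id] at hr0 hrm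
    rcases Nat.lt_or_ge (ret S A' z) n with hlt | hge
    · -- the first return happens before `n`
      set r := ret S A' z with hrdef
      obtain ⟨m', hm'⟩ : ∃ m', n = r + m' := ⟨n - r, by omega⟩
      have hz1 : S^[r] z ∈ A' := hrm
      have e : ∀ s, S^[s] (S^[r] z) = S^[s + r] z := fun s =>
        (Function.iterate_add_apply S s r z).symm
      obtain ⟨m, hm1, hm2⟩ := ih m' (by omega) (z := S^[r] z) hz1
        (fun s hs => by rw [e] at hs ⊢; exact h1 _ hs)
        (fun s hs => by rw [e] at hs ⊢; exact h2 _ hs)
        (fun s hs => by rw [e] at hs ⊢; exact h3 _ hs)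
      refine ⟨ret T B' (φ z) + m, ?_, ?_⟩
      · rw [hm', C4_visits_add]
        have := C4_visits_small (S := S) (A' := A') (z := z) (n := r) le_rfl
        omega
      · rw [hm', List.range_add, List.flatMap_append, C4_flat _ hg hr0 le_rfl, hGz, C4_name_add]
        congr 1
        have hT : T^[ret T B' (φ z)] (φ z) = φ (S^[r] z) := by
          have := h10
          unfold induced at this
          rw [← hrdef] at this
          exact this.symm
        rw [hT, ← hm2, List.flatMap_map]
        congr 1
        funext s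
        rw [e, add_comm r s]
    · refine ⟨ret T B' (φ z), ?_, ?_⟩
      · exact (C4_visits_small hge).trans h30
      · rw [C4_flat _ hg hn hge, hGz]

/-! ## C6 -/

theorem length_Wd (t : ℕ → ℕ) (k i : ℕ) : (Wd t k i).length = h k := by
  induction k generalizing i with
  | zero => rfl
  | succ k ih =>
    rw [Wd, List.length_flatMap]
    have : (List.map (fun q => (Wd t k (pat k (t k) i q)).length) (List.range (L k)))
        = List.replicate (L k) (h k) := by
      rw [List.eq_replicate_iff]
      refine ⟨by simp, ?_⟩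
      intro b hb
      rw [List.mem_map] at hb
      obtain ⟨q, _, rfl⟩ := hb
      exact ih _
    rw [this, List.sum_replicate, smul_eq_mul, h]

private theorem C6_getElem {α : Type*} (g : ℕ → List α) {H : ℕ} (hg : ∀ q, (g q).length = H)
    {n q r : ℕ} (hq : q < n) (hr : r < H) :
    ((List.range n).flatMap g)[q * H + r]? = (g q)[r]? := by
  obtain ⟨m, rfl⟩ : ∃ m, n = q + (1 + m) := ⟨n - q - 1, by omega⟩
  have hlen : ∀ p : ℕ, ((List.range p).flatMap g).length = p * H := by
    intro p
    rw [List.length_flatMap]
    have : (List.map (fun q => (g q).length) (List.range p)) = List.replicate p H := by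
      rw [List.eq_replicate_iff]
      refine ⟨by simp, ?_⟩
      intro b hb
      rw [List.mem_map] at hb
      obtain ⟨q, _, rfl⟩ := hb
      exact hg _
    rw [this, List.sum_replicate, smul_eq_mul]
  rw [List.range_add, List.flatMap_append, List.getElem?_append_right (by rw [hlen]; omega), hlen,
    Nat.add_sub_cancel_left, List.range_add, List.map_append, List.flatMap_append,
    List.getElem?_append_left]
  · simp [List.range_succ]
  · simp [List.range_succ, hg, hr]

private theorem C6_letter {Y : Type*} [MeasurableSpace Y] {s : ℕ → ℕ} {ν : Measure Y}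
    {T : Y → Y} {v : ℕ → Y → ℕ × ℕ} (hT : Tower s ν T v) (y : Y) (k : ℕ) :
    (Wd s k (v k y).1)[(v k y).2]? = some (v 0 y).1 := by
  induction k with
  | zero =>
    have : (v 0 y).2 = 0 := by
      have := hT.lt2 0 y
      unfold h at this
      omega
    rw [this]
    rfl
  | succ k ih =>
    have hp := hT.proj k y
    have h1 : (v k y).1 = pat k (s k) (v (k + 1) y).1 ((v (k + 1) y).2 / h k) := by
      rw [← hp]; rfl
    have h2 : (v k y).2 = (v (k + 1) y).2 % h k := by
      rw [← hp]; rfl
    have hl : (v (k + 1) y).2 = (v (k + 1) y).2 / h k * h k + (v (k + 1) y).2 % h k := by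
      rw [mul_comm]; exact (Nat.div_add_mod _ _).symm
    have hlt : (v (k + 1) y).2 / h k < L k := by
      rw [Nat.div_lt_iff_lt_mul (h_pos k)]
      have := hT.lt2 (k + 1) y
      rwa [h] at this
    rw [Wd, hl, C6_getElem (H := h k) _ (fun q => length_Wd s k _) hlt
      (Nat.mod_lt _ (h_pos k)), ← h1, ← h2]
    exact ih

theorem name_eq {Y : Type*} [MeasurableSpace Y] {s : ℕ → ℕ} {ν : Measure Y}
    {T : Y → Y} {v : ℕ → Y → ℕ × ℕ} (hT : Tower s ν T v) :
    ∀ᵐ y ∂ν, ∀ k n, (v k y).2 + n ≤ h k →
      name (fun y => (v 0 y).1) T y n = ((Wd s k (v k y).1).drop (v k y).2).take n := by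
  have hstep : ∀ᵐ y ∂ν, ∀ k m, (v k (T^[m] y)).2 + 1 < h k →
      v k (T (T^[m] y)) = ((v k (T^[m] y)).1, (v k (T^[m] y)).2 + 1) := by
    rw [ae_all_iff]; intro k
    rw [ae_all_iff]; intro m
    exact (hT.mp.iterate m).quasiMeasurePreserving.ae (hT.step k)
  filter_upwards [hstep] with y hy
  intro k n hn
  have horb : ∀ m, (v k y).2 + m < h k → v k (T^[m] y) = ((v k y).1, (v k y).2 + m) := by
    intro m
    induction m with
    | zero => intro _; rfl
    | succ m ih =>
      intro hm
      have hi := ih (by omega)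
      have := hy k m (by rw [hi]; exact hm)
      rw [Function.iterate_succ_apply', this, hi]
      rfl
  apply List.ext_getElem?
  intro m
  rcases Nat.lt_or_ge m n with hm | hm
  · rw [List.getElem?_take_of_lt hm, List.getElem?_drop]
    have h0 := C6_letter hT (T^[m] y) k
    rw [horb m (by omega)] at h0
    rw [h0]
    unfold name
    rw [List.getElem?_map, List.getElem?_range hm]
    rfl
  · rw [List.getElem?_eq_none, List.getElem?_eq_none]
    · rw [List.length_take]; omega
    · unfold name; rw [List.length_map, List.length_range]; exact hm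

end KakC
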